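import Pool.Agent.Work.MP_35beee_gt.TTop
import Pool.Agent.Work.MP_35beee_gt.TCell
import Pool.Agent.Work.MP_35beee_gt.USph
import Pool.Agent.Work.MP_35beee_gt.UStat
import Pool.Agent.Work.MP_35beee_gt.VEmb

/-!
The horofunction boundary of the reversed Thurston metric, for every complete hyperbolic surface of
finite area that has an essential simple closed curve.
-/

namespace Pool.Agent.Results.MP_35beee_gt.Full

open HRT Filter Topology

theorem result {Γ : Type} [Group Γ] (ρ : Γ →* Isom) (hρ : Lattice ρ) (hs : ∃ γ, Simple ρ γ)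
    (b : Teich ρ) :
    (∀ x z : Teich ρ, BddAbove (ratios x z)) ∧ Embeds (psi b) ∧
    IsCompact (closure (horoImage b)) ∧
    (∀ h, Expl b h → Continuous h) ∧ (∀ f : C(Teich ρ, ℝ), f ∈ horoBdry b ↔ Expl b f) ∧
    IsCompact (horoBdry b) ∧ TopologicalSpace.MetrizableSpace (horoBdry b) ∧
    (∀ f ∈ horoBdry b, Envelope (below f) (fun z => Real.exp (f z)) ∧ InCone (below f)) ∧
    (∀ (f : ℕ → C(Teich ρ, ℝ)) (g : C(Teich ρ, ℝ)), (∀ n, f n ∈ horoBdry b) → g ∈ horoBdry b →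
      (Tendsto f atTop (𝓝 g) ↔ SetLim (fun n => below (f n)) (below g))) ∧
    Retracts (horoBdry b) (PML b) ∧
    ∃ k : ℕ, IsGreatest {n : ℕ | ∃ R : Fin n → Γ, Multi ρ R} k ∧ IsSphere (PML b) (2 * k) ∧
      HasCube (horoBdry b) (k ^ 2 - 1) ∧ (horoBdry b = PML b ↔ k = 1) ∧
        ((∃ n, IsSphere (horoBdry b) n) ↔ k = 1) := by
  classical
  obtain ⟨A, -, hG⟩ := hρ.good
  have hret : Retracts (horoBdry b) (PML b) := ⟨pml_subset hG hs b, exists_retraction hG hs b⟩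
  refine ⟨bddAbove_ratios hG, exists_embedding hG hs b, isCompact_closure_horoImage hG hs b,
    fun _ => exists_cont_of_expl hG hs b,
    fun f => ⟨expl_of_mem hG hs b, mem_of_expl hG hs b⟩, isCompact_horoBdry hG hs b,
    metrizable_horoBdry hG hs b, fun f hf => ?_, fun f g hf hg => ?_, hret, ?_⟩
  · obtain ⟨h1, h2, h3, h4⟩ := below_spec hG hs b hf
    exact ⟨⟨h1, h2, h3⟩, h4⟩
  · exact (tendsto_subtype_rng (f := fun n => (⟨f n, hf n⟩ : horoBdry b)) (x := ⟨g, hg⟩)).symm.trans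
      (tendsto_iff_below hG hs b _ _)
  · obtain ⟨ξ, hξ⟩ := hG.exists_multi_bound
    obtain ⟨γ, hγ⟩ := id hs
    have h1 : 1 ∈ {n : ℕ | ∃ R : Fin n → Γ, Multi ρ R} :=
      ⟨fun _ => γ, fun _ => hγ, fun i j h => absurd (Subsingleton.elim i j) h⟩
    have hb : BddAbove {n : ℕ | ∃ R : Fin n → Γ, Multi ρ R} := 
      ⟨ξ, fun n ⟨R, hR⟩ => by simpa using hξ _ R hR⟩
    have hk : IsGreatest {n : ℕ | ∃ R : Fin n → Γ, Multi ρ R} _ :=
      ⟨Nat.sSup_mem ⟨1, h1⟩ hb, fun _ h => le_csSup hb h⟩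
    generalize sSup {n : ℕ | ∃ R : Fin n → Γ, Multi ρ R} = k at hk
    obtain ⟨R, hR⟩ := hk.1
    have h2 : 1 ≤ k := hk.2 h1
    have h3 : IsSphere (PML b) (2 * k) :=
      pml_sphere hG hs b hR fun h => absurd (hk.2 h) (Nat.not_succ_le_self k)
    have h4 : horoBdry b = PML b ↔ k = 1 := by
      refine ⟨fun h => ?_, fun h => eq_pml hG hs b fun h5 => ?_⟩
      · by_contra h5
        exact ne_pml hG b ⟨_, hR.comp (Fin.castLE_injective (by omega : 2 ≤ k))⟩ h
      · have := hk.2 h5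
        omega
    exact ⟨k, hk, h3, exists_cell hG b h2 hR, h4,
      fun ⟨n, hn⟩ => h4.1 (eq_of_sphere hret h3 hn), fun h => ⟨2 * k, h4.2 h ▸ h3⟩⟩

end Pool.Agent.Results.MP_35beee_gt.Full
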